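import Mathlib

/-!
# The full complex of a graph: definitions

MP_7f673e_co. The full complex `X(G)` of a loopless multigraph `G` is the 2-complex with
1-skeleton `G` and one 2-cell for every cycle of `G`. This file describes continuous maps
`X(G) -> Z` to a space `Z` (`FullMap`), the injective ones (`FullMap.IsInjective`), the almost
embeddings (`FullMap.IsAlmostEmbedding`: disjoint closed cells have disjoint images), and the
operations on graphs (`Step`). Multigraphs are those of Mathlib (`Graph`).
-/

open scoped unitInterval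
open Set

namespace H95F

variable {α β : Type*} {G : Graph α β}

/-- Walks of a multigraph. -/
inductive Walk (G : Graph α β) : α → α → Type _
  | nil (x : α) : Walk G x x
  | cons {x y z : α} (e : β) (h : G.IsLink e x y) (p : Walk G y z) : Walk G x z

namespace Walk

/-- the list of the vertices of a walk, in order -/
def support : {x y : α} → Walk G x y → List α
  | x, _, nil _ => [x]
  | x, _, cons _ _ p => x :: p.support

/-- the list of the edges of a walk, in order -/
def edges : {x y : α} → Walk G x y → List β
  | _, _, nil _ => []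
  | _, _, cons e _ p => e :: p.edges

/-- a closed walk which runs once around a cycle of `G`: at least one edge, no edge twice and no
vertex twice (a cycle of length two consists of two parallel edges) -/
def IsCycle {x : α} (w : Walk G x x) : Prop :=
  w.edges ≠ [] ∧ w.edges.Nodup ∧ w.support.tail.Nodup

end Walk

variable {Z : Type*} [TopologicalSpace Z]

/-- A continuous map of the graph `G` (as a 1-complex) to `Z`: points `pt x` for the vertices
and, for every edge `e` with ends `x, y`, a path `arc e x y` from `pt x` to `pt y`, `arc e y x`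
being its reverse. -/
structure Drawing (G : Graph α β) (Z : Type*) [TopologicalSpace Z] where
  pt : α → Z
  arc : β → α → α → C(I, Z)
  arc_zero : ∀ {e x y}, G.IsLink e x y → arc e x y 0 = pt x
  arc_one : ∀ {e x y}, G.IsLink e x y → arc e x y 1 = pt y
  arc_symm : ∀ {e x y}, G.IsLink e x y → ∀ t, arc e y x t = arc e x y (σ t)

/-- the path of an edge -/
def Drawing.path (D : Drawing G Z) {e : β} {x y : α} (h : G.IsLink e x y) :
    Path (D.pt x) (D.pt y) :=
  ⟨D.arc e x y, D.arc_zero h, D.arc_one h⟩

/-- the path of a walk: the arcs of its edges one after the other -/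
noncomputable def Drawing.walk (D : Drawing G Z) :
    {x y : α} → Walk G x y → Path (D.pt x) (D.pt y)
  | x, _, .nil _ => Path.refl (D.pt x)
  | _, _, .cons _ h (.nil _) => D.path h
  | _, _, .cons _ h (.cons e' h' p) => (D.path h).trans (D.walk (.cons e' h' p))

/-- `C` is (the set of edges of) a cycle of `G` -/
def IsCycleSet (G : Graph α β) (C : Set β) : Prop :=
  ∃ (x : α) (w : Walk G x x), w.IsCycle ∧ {e | e ∈ w.edges} = C

/-- A continuous map of the full complex `X(G)` to `Z`: a map of the graph `G` and, for every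
cycle `C` of `G`, a map of one closed disc whose boundary runs once around `C`. The boundary is
described by a closed walk `bdry` around `C` with start `base`, and the disc by a homotopy with
fixed ends from the closed path of this walk to the constant path. -/
structure FullMap (G : Graph α β) (Z : Type*) [TopologicalSpace Z] extends Drawing G Z where
  base : ∀ C, IsCycleSet G C → α
  bdry : ∀ C (hC : IsCycleSet G C), Walk G (base C hC) (base C hC)
  bdry_isCycle : ∀ C (hC : IsCycleSet G C), (bdry C hC).IsCycle
  bdry_edges : ∀ C (hC : IsCycleSet G C), {e | e ∈ (bdry C hC).edges} = C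
  disc : ∀ C (hC : IsCycleSet G C),
    Path.Homotopy (toDrawing.walk (bdry C hC)) (Path.refl (pt (base C hC)))

/-- the closed cells of the full complex `X(G)`: vertices, edges, and one disc for every cycle -/
inductive Cell (G : Graph α β) : Type _
  | vertex (x : α) (h : x ∈ G.vertexSet) : Cell G
  | edge (e : β) (h : e ∈ G.edgeSet) : Cell G
  | disc (C : Set β) (h : IsCycleSet G C) : Cell G

/-- the vertices of `G` on a closed cell -/
def Cell.verts : Cell G → Set α
  | .vertex x _ => {x}
  | .edge e _ => {x | G.Inc e x}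
  | .disc C _ => {x | ∃ e ∈ C, G.Inc e x}

/-- the image of a closed cell -/
def FullMap.image (f : FullMap G Z) : Cell G → Set Z
  | .vertex x _ => {f.pt x}
  | .edge e _ => {z | ∃ x y, G.IsLink e x y ∧ z ∈ Set.range (f.arc e x y)}
  | .disc C h => Set.range (f.disc C h)

/-- `f` is an almost embedding: closed cells of `X(G)` without a common vertex (that is, disjoint
closed cells) have disjoint images. -/
def FullMap.IsAlmostEmbedding (f : FullMap G Z) : Prop :=
  ∀ s t : Cell G, Disjoint s.verts t.verts → Disjoint (f.image s) (f.image t)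

/-- the full complex of `G` almost embeds in `Z` -/
def AlmostEmbeds (G : Graph α β) (Z : Type*) [TopologicalSpace Z] : Prop :=
  ∃ f : FullMap G Z, f.IsAlmostEmbedding

/-- `f` is injective on the full complex `X(G)`: the points of the vertices, of the open edges
and of the open discs are all distinct. -/
structure FullMap.IsInjective (f : FullMap G Z) : Prop where
  vertex_vertex : ∀ x ∈ G.vertexSet, ∀ y ∈ G.vertexSet, f.pt x = f.pt y → x = y
  edge_vertex : ∀ e x y, G.IsLink e x y → ∀ t ∈ Ioo (0 : I) 1, ∀ z ∈ G.vertexSet,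
    f.arc e x y t ≠ f.pt z
  edge_edge : ∀ e x y e' x' y', G.IsLink e x y → G.IsLink e' x' y' → ∀ t ∈ Ioo (0 : I) 1,
    ∀ t' ∈ Ioo (0 : I) 1, f.arc e x y t = f.arc e' x' y' t' → e = e' ∧ (x = x' → t = t')
  disc_vertex : ∀ C hC, ∀ p ∈ Ioo (0 : I) 1 ×ˢ Ioo (0 : I) 1, ∀ z ∈ G.vertexSet,
    f.disc C hC p ≠ f.pt z
  disc_edge : ∀ C hC, ∀ p ∈ Ioo (0 : I) 1 ×ˢ Ioo (0 : I) 1, ∀ e x y, G.IsLink e x y →
    ∀ t ∈ Ioo (0 : I) 1, f.disc C hC p ≠ f.arc e x y t
  disc_disc : ∀ C hC C' hC', ∀ p ∈ Ioo (0 : I) 1 ×ˢ Ioo (0 : I) 1,
    ∀ p' ∈ Ioo (0 : I) 1 ×ˢ Ioo (0 : I) 1, f.disc C hC p = f.disc C' hC' p' → C = C' ∧ p = p'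

/-- `H` arises from `G` by the Y-Delta transformation at the vertex `v` of degree three with the
three distinct neighbours `a, b, c`, joined to `v` by the edges `ea, eb, ec`: `v` is deleted, and
`ea, eb, ec` are now used as names of the three new edges `bc, ca, ab`. -/
structure IsYDelta (G H : Graph α β) (v a b c : α) (ea eb ec : β) : Prop where
  linkA : G.IsLink ea v a
  linkB : G.IsLink eb v b
  linkC : G.IsLink ec v c
  only : ∀ e, G.Inc e v → e = ea ∨ e = eb ∨ e = ec
  va : v ≠ a
  vb : v ≠ b
  vc : v ≠ c
  ab : a ≠ b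
  bc : b ≠ c
  ca : c ≠ a
  verts : H.vertexSet = G.vertexSet \ {v}
  link : ∀ e x y, H.IsLink e x y ↔
    (e ≠ ea ∧ e ≠ eb ∧ e ≠ ec ∧ G.IsLink e x y) ∨ (e = ea ∧ s(x, y) = s(b, c)) ∨
    (e = eb ∧ s(x, y) = s(c, a)) ∨ (e = ec ∧ s(x, y) = s(a, b))

/-- `H` arises from `G` by contracting the edge `e0` with the distinct ends `x0, y0` to `x0`, and
deleting the loops that arise. -/
structure IsContraction (G H : Graph α β) (e0 : β) (x0 y0 : α) : Prop where
  link0 : G.IsLink e0 x0 y0
  ne : x0 ≠ y0
  verts : H.vertexSet = G.vertexSet \ {y0}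
  link : ∀ e x y, H.IsLink e x y ↔ x ≠ y ∧ ∃ x' y', G.IsLink e x' y' ∧
    ((x' ≠ y0 ∧ x = x') ∨ (x' = y0 ∧ x = x0)) ∧ ((y' ≠ y0 ∧ y = y') ∨ (y' = y0 ∧ y = x0))

/-- `H` arises from `G` by doubling the edge `e0`: a new edge `e1` with the same ends is added. -/
structure IsDoubling (G H : Graph α β) (e0 e1 : β) : Prop where
  mem : e0 ∈ G.edgeSet
  notMem : e1 ∉ G.edgeSet
  verts : H.vertexSet = G.vertexSet
  link : ∀ e x y, H.IsLink e x y ↔ G.IsLink e x y ∨ (e = e1 ∧ G.IsLink e0 x y)

/-- One step: a Y-Delta transformation, the deletion of vertices and edges, the contraction of an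
edge, or the doubling of an edge. -/
inductive Step : Graph α β → Graph α β → Prop
  | yDelta {G H : Graph α β} {v a b c : α} {ea eb ec : β} (h : IsYDelta G H v a b c ea eb ec) :
      Step G H
  | delete {G H : Graph α β} (h : H ≤ G) : Step G H
  | contract {G H : Graph α β} {e0 : β} {x0 y0 : α} (h : IsContraction G H e0 x0 y0) : Step G H
  | double {G H : Graph α β} {e0 e1 : β} (h : IsDoubling G H e0 e1) : Step G H

end H95F
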