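import Pool.Agent.Lib.H95F.Defs

/-!
# Almost embeddings of the full complex of a graph

MP_7f673e_co. The full complex `X(G)` of a multigraph `G` is the 2-complex with 1-skeleton `G` and
one 2-cell for every cycle of `G`. We describe continuous maps `X(G) -> Z` to a space `Z`
(`FullMap`), injective ones (`FullMap.IsInjective`) and almost embeddings
(`FullMap.IsAlmostEmbedding`: disjoint closed cells have disjoint images), and prove that the
graphs whose full complex almost embeds in `Z` are closed under Y-Delta transformations, deletions,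
contractions and the doubling of edges.
-/

open scoped unitInterval
open Set

namespace H95F

section Homotopies

variable {Z : Type*} [TopologicalSpace Z] {x y z w : Z} {S T : Set Z}

/-- `p` and `q` are homotopic with fixed ends inside the set `S`. -/
def HomIn (S : Set Z) {x y : Z} (p q : Path x y) : Prop :=
  ∃ F : Path.Homotopy p q, ∀ t, F t ∈ S

theorem HomIn.mono {p q : Path x y} (h : HomIn S p q) (hST : S ⊆ T) : HomIn T p q := by
  obtain ⟨F, hF⟩ := h
  exact ⟨F, fun t => hST (hF t)⟩

theorem HomIn.refl {p : Path x y} (h : ∀ t, p t ∈ S) : HomIn S p p :=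
  ⟨Path.Homotopy.refl p, fun t => by simpa using h t.2⟩

theorem HomIn.symm {p q : Path x y} (h : HomIn S p q) : HomIn S q p := by
  obtain ⟨F, hF⟩ := h
  exact ⟨F.symm, fun t => hF _⟩

theorem HomIn.trans {p q r : Path x y} (h : HomIn S p q) (h' : HomIn S q r) : HomIn S p r := by
  obtain ⟨F, hF⟩ := h
  obtain ⟨F', hF'⟩ := h'
  refine ⟨F.trans F', fun t => ?_⟩
  rw [Path.Homotopy.trans_apply]
  split_ifs
  · exact hF _
  · exact hF' _

theorem HomIn.hcomp {p p' : Path x y} {q q' : Path y z} (h : HomIn S p p') (h' : HomIn S q q') :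
    HomIn S (p.trans q) (p'.trans q') := by
  obtain ⟨F, hF⟩ := h
  obtain ⟨F', hF'⟩ := h'
  refine ⟨F.hcomp F', fun t => ?_⟩
  rw [Path.Homotopy.hcomp_apply]
  split_ifs
  · exact hF _
  · exact hF' _

/-- a path in `S`, as a path of the subspace -/
def lift (p : Path x y) (h : ∀ t, p t ∈ S) :
    Path (⟨x, by simpa using h 0⟩ : S) ⟨y, by simpa using h 1⟩ where
  toFun t := ⟨p t, h t⟩
  continuous_toFun := by fun_prop
  source' := by simp
  target' := by simp

theorem homIn_of_lift {p q : Path x y} (hp : ∀ t, p t ∈ S) (hq : ∀ t, q t ∈ S)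
    (H : (lift p hp).Homotopic (lift q hq)) : HomIn S p q := by
  obtain ⟨F⟩ := H
  let F' : Path.Homotopy p q :=
    { toFun := fun t => (F t : Z)
      continuous_toFun := by fun_prop
      map_zero_left := fun t => congrArg Subtype.val (F.map_zero_left t)
      map_one_left := fun t => congrArg Subtype.val (F.map_one_left t)
      prop' := fun t s hs => congrArg Subtype.val (F.prop' t s hs) }
  exact ⟨F', fun t => (F t).2⟩

theorem trans_mem {p : Path x y} {q : Path y z} (hp : ∀ t, p t ∈ S) (hq : ∀ t, q t ∈ S) (t : I) :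
    (p.trans q) t ∈ S := by
  rw [Path.trans_apply]
  split_ifs
  · exact hp _
  · exact hq _

theorem lift_trans {p : Path x y} {q : Path y z} (hp : ∀ t, p t ∈ S) (hq : ∀ t, q t ∈ S) :
    lift (p.trans q) (trans_mem hp hq) = (lift p hp).trans (lift q hq) := by
  ext t
  simp only [lift, Path.trans_apply, Path.coe_mk_mk]
  split_ifs <;> rfl

theorem homIn_assoc {p : Path x y} {q : Path y z} {r : Path z w} (hp : ∀ t, p t ∈ S)
    (hq : ∀ t, q t ∈ S) (hr : ∀ t, r t ∈ S) :
    HomIn S ((p.trans q).trans r) (p.trans (q.trans r)) := by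
  refine homIn_of_lift (trans_mem (trans_mem hp hq) hr) (trans_mem hp (trans_mem hq hr)) ?_
  rw [lift_trans (trans_mem hp hq) hr, lift_trans hp hq, lift_trans hp (trans_mem hq hr),
    lift_trans hq hr]
  exact ⟨Path.Homotopy.transAssoc _ _ _⟩

theorem homIn_refl_trans {p : Path x y} (hp : ∀ t, p t ∈ S) :
    HomIn S ((Path.refl x).trans p) p := by
  have hx : ∀ t, (Path.refl x) t ∈ S := fun t => by simpa using hp 0
  refine homIn_of_lift (trans_mem hx hp) hp ?_
  rw [lift_trans hx hp]
  exact ⟨Path.Homotopy.reflTrans _⟩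

theorem homIn_trans_refl {p : Path x y} (hp : ∀ t, p t ∈ S) :
    HomIn S (p.trans (Path.refl y)) p := by
  have hx : ∀ t, (Path.refl y) t ∈ S := fun t => by simpa using hp 1
  refine homIn_of_lift (trans_mem hp hx) hp ?_
  rw [lift_trans hp hx]
  exact ⟨Path.Homotopy.transRefl _⟩

theorem homIn_trans_symm {p : Path x y} (hp : ∀ t, p t ∈ S) :
    HomIn S (p.trans p.symm) (Path.refl x) := by
  have hx : ∀ t, (Path.refl x) t ∈ S := fun t => by simpa using hp 0
  have hs : ∀ t, p.symm t ∈ S := fun t => hp _
  refine homIn_of_lift (trans_mem hp hs) hx ?_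
  rw [lift_trans hp hs]
  exact ⟨(Path.Homotopy.reflTransSymm (lift p hp)).symm⟩


theorem homIn_symm_trans {p : Path x y} (hp : ∀ t, p t ∈ S) :
    HomIn S (p.symm.trans p) (Path.refl y) := by
  have h := homIn_trans_symm (S := S) (p := p.symm) (fun t => hp _)
  rwa [Path.symm_symm] at h

theorem HomIn.symm₂ {p q : Path x y} (h : HomIn S p q) : HomIn S p.symm q.symm := by
  obtain ⟨F, hF⟩ := h
  exact ⟨F.symm₂, fun t => hF _⟩

/-- if `p q` is null-homotopic in `S` then so is `q p` -/
theorem HomIn.rotate {p : Path x y} {q : Path y x} (hp : ∀ t, p t ∈ S) (hq : ∀ t, q t ∈ S)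
    (h : HomIn S (p.trans q) (Path.refl x)) : HomIn S (q.trans p) (Path.refl y) := by
  have hs : ∀ t, p.symm t ∈ S := fun t => hp _
  have h1 : HomIn S q p.symm :=
    (((homIn_refl_trans hq).symm.trans ((homIn_symm_trans hp).symm.hcomp (HomIn.refl hq))).trans
      (homIn_assoc hs hp hq)).trans (((HomIn.refl hs).hcomp h).trans (homIn_trans_refl hs))
  exact (h1.hcomp (HomIn.refl hp)).trans (homIn_symm_trans hp)

end Homotopies

section Graphs

variable {α β : Type*} {G : Graph α β}

namespace Walk

/-- concatenation -/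
def append : {x y z : α} → Walk G x y → Walk G y z → Walk G x z
  | _, _, _, nil _, q => q
  | _, _, _, cons e h p, q => cons e h (p.append q)

/-- reversal -/
def reverse : {x y : α} → Walk G x y → Walk G y x
  | _, _, nil x => nil x
  | x, _, cons e h p => p.reverse.append (cons e h.symm (nil x))

theorem start_mem_support {x y : α} (p : Walk G x y) : x ∈ p.support := by
  cases p <;> simp [support]

theorem end_mem_support {x y : α} (p : Walk G x y) : y ∈ p.support := by
  induction p with
  | nil x => simp [support]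
  | cons e h p ih => simp [support, ih]

theorem support_eq_cons {x y : α} (p : Walk G x y) : p.support = x :: p.support.tail := by
  cases p <;> simp [support]

theorem exists_append_of_mem {y z : α} (q : Walk G y z) {x : α} (hx : x ∈ q.support) :
    ∃ (q1 : Walk G y x) (q2 : Walk G x z), q = q1.append q2 := by
  induction q with
  | nil y =>
    simp only [support, List.mem_singleton] at hx
    subst hx
    exact ⟨nil _, nil _, rfl⟩
  | @cons y u z e h p ih =>
    simp only [support, List.mem_cons] at hx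
    by_cases hxy : x = y
    · subst hxy
      exact ⟨nil _, cons e h p, rfl⟩
    · obtain ⟨q1, q2, hq⟩ := ih (hx.resolve_left hxy)
      exact ⟨cons e h q1, q2, by rw [hq]; rfl⟩

theorem support_append {x y z : α} (p : Walk G x y) (q : Walk G y z) :
    (p.append q).support = p.support ++ q.support.tail := by
  induction p with
  | nil x => simpa [append, support] using support_eq_cons q
  | cons e h p ih => simp [append, support, ih q]

theorem edges_append {x y z : α} (p : Walk G x y) (q : Walk G y z) :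
    (p.append q).edges = p.edges ++ q.edges := by
  induction p with
  | nil x => simp [append, edges]
  | cons e h p ih => simp [append, edges, ih q]

theorem support_reverse {x y : α} (p : Walk G x y) : p.reverse.support = p.support.reverse := by
  induction p with
  | nil x => simp [reverse, support]
  | cons e h p ih => simp [reverse, support_append, support, ih]

theorem edges_reverse {x y : α} (p : Walk G x y) : p.reverse.edges = p.edges.reverse := by
  induction p with
  | nil x => simp [reverse, edges]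
  | cons e h p ih => simp [reverse, edges_append, edges, ih]

theorem end_mem_of_edge {x y u w : α} {e : β} (p : Walk G x y) (he : e ∈ p.edges)
    (h : G.IsLink e u w) : u ∈ p.support := by
  induction p with
  | nil x => simp [edges] at he
  | @cons x y' z e' h' p ih =>
    simp only [edges, List.mem_cons] at he
    rcases he with rfl | he
    · rcases h.left_eq_or_eq h' with rfl | rfl
      · simp [support]
      · simp [support, start_mem_support]
    · simp [support, ih he]

theorem edges_nodup_of_support {x y : α} (p : Walk G x y) (hp : p.support.Nodup) :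
    p.edges.Nodup := by
  induction p with
  | nil x => simp [edges]
  | @cons x y' z e' h' p ih =>
    simp only [support, List.nodup_cons] at hp
    simp only [edges, List.nodup_cons]
    exact ⟨fun h => hp.1 (end_mem_of_edge p h h'), ih hp.2⟩

theorem eq_nil_of_nodup {x : α} (p : Walk G x x) (hp : p.support.Nodup) : p = nil x := by
  cases p with
  | nil x => rfl
  | cons e h p =>
    exfalso
    simp only [support, List.nodup_cons] at hp
    exact hp.1 (end_mem_support p)

/-- all vertices of the walk are vertices of the graph if the first one is -/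
theorem mem_vertexSet {x y : α} (p : Walk G x y) (hx : x ∈ G.vertexSet) {u : α}
    (hu : u ∈ p.support) : u ∈ G.vertexSet := by
  induction p with
  | nil x =>
    simp only [support, List.mem_singleton] at hu
    exact hu ▸ hx
  | @cons x y' z e' h' p ih =>
    simp only [support, List.mem_cons] at hu
    rcases hu with rfl | hu
    · exact hx
    · exact ih h'.right_mem hu

/-- every edge of a walk has ends on the walk -/
theorem mem_support_of_edge {x y u : α} {e : β} (p : Walk G x y) (he : e ∈ p.edges)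
    (h : G.Inc e u) : u ∈ p.support := by
  obtain ⟨w, hw⟩ := h
  exact end_mem_of_edge p he hw

/-- a simple path is determined by its ends and its set of edges -/
theorem eq_of_edges {x y : α} (p q : Walk G x y) (hp : p.support.Nodup) (hq : q.support.Nodup)
    (h : ∀ e, e ∈ p.edges ↔ e ∈ q.edges) : p = q := by
  induction p with
  | nil x =>
    exact (q.eq_nil_of_nodup hq).symm
  | @cons x u z e h1 p ih =>
    cases q with
    | nil x =>
      exact absurd ((h e).1 (by simp [edges])) (by simp [edges])
    | @cons x u' z e' h1' q =>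
      simp only [support, List.nodup_cons] at hp hq
      have he : e = e' := by
        have := (h e).1 (by simp [edges])
        simp only [edges, List.mem_cons] at this
        rcases this with h2 | h2
        · exact h2
        · exact absurd (q.end_mem_of_edge h2 h1) hq.1
      subst he
      obtain rfl : u = u' := h1.right_unique h1'
      have hpe : e ∉ p.edges := fun h2 => hp.1 (p.end_mem_of_edge h2 h1)
      have hqe : e ∉ q.edges := fun h2 => hq.1 (q.end_mem_of_edge h2 h1')
      rw [ih q hp.2 hq.2 ?_]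
      intro f
      have h3 := h f
      simp only [edges, List.mem_cons] at h3
      constructor
      · intro hf
        rcases h3.1 (Or.inr hf) with rfl | h4
        · exact absurd hf hpe
        · exact h4
      · intro hf
        rcases h3.2 (Or.inr hf) with rfl | h4
        · exact absurd hf hqe
        · exact h4

/-- an edge of a simple path at its last vertex is the last edge -/
theorem getLast_of_inc {x y : α} {e : β} (p : Walk G x y) (hp : p.support.Nodup)
    (he : e ∈ p.edges) (hy : G.Inc e y) : p.edges.getLast? = some e := by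
  induction p with
  | nil x => simp [edges] at he
  | @cons x u z f h p ih =>
    simp only [support, List.nodup_cons] at hp
    simp only [edges, List.mem_cons] at he
    rcases he with rfl | he
    · obtain ⟨w, hw⟩ := hy
      have huz : z = x ∨ z = u := hw.left_eq_or_eq h
      rcases huz with rfl | rfl
      · exact absurd p.end_mem_support hp.1
      · rw [p.eq_nil_of_nodup hp.2]
        simp [edges]
    · have h2 := ih hp.2 he hy
      cases hpe : p.edges with
      | nil => simp [hpe] at he
      | cons a l =>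
        rw [hpe] at h2
        simpa [edges, hpe] using h2

theorem IsCycle.reverse {x : α} {w : Walk G x x} (hw : w.IsCycle) : w.reverse.IsCycle := by
  refine ⟨?_, ?_, ?_⟩
  · rw [edges_reverse]
    simpa using hw.1
  · rw [edges_reverse, List.nodup_reverse]
    exact hw.2.1
  · cases w with
    | nil x => exact absurd rfl hw.1
    | cons e h p =>
      have h2 : p.support.Nodup := hw.2.2
      rw [Walk.reverse, support_append]
      have h3 : p.reverse.support = p.support.reverse := support_reverse p
      have h4 : x ∈ p.support := p.end_mem_support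
      rw [support_eq_cons p.reverse] at h3 ⊢
      simp only [support, List.tail_cons, List.cons_append, List.tail_cons]
      have h5 : (x :: p.reverse.support.tail).Nodup := by
        rw [h3, List.nodup_reverse]
        exact h2
      rw [List.nodup_cons] at h5
      rw [List.nodup_append]
      refine ⟨h5.2, by simp, ?_⟩
      rintro a ha b hb rfl
      simp only [List.mem_singleton] at hb
      exact h5.1 (hb ▸ ha)

theorem isCycle_cons {x y : α} {e : β} {h : G.IsLink e x y} {p : Walk G y x} :
    (cons e h p).IsCycle ↔ e ∉ p.edges ∧ p.support.Nodup := by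
  constructor
  · rintro ⟨-, h1, h2⟩
    simp only [edges, List.nodup_cons] at h1
    exact ⟨h1.1, h2⟩
  · rintro ⟨h1, h2⟩
    refine ⟨by simp [edges], ?_, h2⟩
    simp only [edges, List.nodup_cons]
    exact ⟨h1, p.edges_nodup_of_support h2⟩

/-- two closed walks around the same cycle with the same start and the same first edge agree -/
theorem eq_of_first {x y y' : α} {e : β} {h : G.IsLink e x y} {h' : G.IsLink e x y'}
    {p : Walk G y x} {p' : Walk G y' x} (hc : (cons e h p).IsCycle) (hc' : (cons e h' p').IsCycle)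
    (hE : ∀ f, f ∈ (cons e h p).edges ↔ f ∈ (cons e h' p').edges) :
    cons e h p = cons e h' p' := by
  obtain rfl : y = y' := h.right_unique h'
  rw [isCycle_cons] at hc hc'
  rw [eq_of_edges p p' hc.2 hc'.2 ?_]
  intro f
  have h3 := hE f
  simp only [edges, List.mem_cons] at h3
  constructor
  · intro hf
    rcases h3.1 (Or.inr hf) with rfl | h4
    · exact absurd hf hc.1
    · exact h4
  · intro hf
    rcases h3.2 (Or.inr hf) with rfl | h4
    · exact absurd hf hc'.1
    · exact h4

/-- two closed walks around the same cycle with the same start agree up to reversal -/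
theorem eq_or_eq_reverse {x : α} {w r : Walk G x x} (hw : w.IsCycle) (hr : r.IsCycle)
    (hE : ∀ f, f ∈ w.edges ↔ f ∈ r.edges) : r = w ∨ r = w.reverse := by
  cases w with
  | nil x => exact absurd rfl hw.1
  | @cons x y _ e h p =>
    cases r with
    | nil x => exact absurd rfl hr.1
    | @cons x y' _ e' h' p' =>
      by_cases hee : e = e'
      · subst hee
        exact Or.inl (eq_of_first hr hw (fun f => (hE f).symm))
      · right
        have hrev := hw.reverse
        have hEr : ∀ f, f ∈ (cons e h p).reverse.edges ↔ f ∈ (cons e' h' p').edges := by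
          intro f
          rw [edges_reverse, List.mem_reverse]
          exact hE f
        have hlast : (cons e h p).reverse.edges = p.edges.reverse ++ [e] := by
          rw [edges_reverse]
          simp [edges]
        revert hrev hEr hlast
        generalize (cons e h p).reverse = s
        intro hs hEs hlast
        cases s with
        | nil x => exact absurd rfl hs.1
        | @cons x y'' _ e'' h'' p'' =>
          have h1 : e' ∈ (cons e'' h'' p'').edges := (hEs e').2 (by simp [edges])
          have h2 : e' = e'' := by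
            simp only [edges, List.mem_cons] at h1
            rcases h1 with h1 | h1
            · exact h1
            · exfalso
              have h3 := getLast_of_inc p'' (isCycle_cons.1 hs).2 h1 ⟨_, h'⟩
              have h4 : (cons e'' h'' p'').edges.getLast? = some e' := by
                cases hpe : p''.edges with
                | nil => simp [hpe] at h1
                | cons a l =>
                  rw [hpe] at h3
                  simpa [edges, hpe] using h3
              rw [hlast] at h4
              simp at h4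
              exact hee h4
          subst h2
          exact eq_of_first hr hs (fun f => (hEs f).symm)

end Walk


variable {Z : Type*} [TopologicalSpace Z]

theorem exists_edge_of_mem {x : α} {w : Walk G x x} (hw : w.IsCycle) {u : α}
    (hu : u ∈ w.support) : ∃ e ∈ w.edges, G.Inc e u := by
  obtain ⟨b1, b2, rfl⟩ := w.exists_append_of_mem hu
  cases b2 with
  | cons e h p => exact ⟨e, by simp [Walk.edges_append, Walk.edges], ⟨_, h⟩⟩
  | nil _ =>
    cases b1 with
    | nil _ => exact absurd rfl hw.1
    | cons e h p => exact ⟨e, by simp [Walk.edges_append, Walk.edges], ⟨_, h⟩⟩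

/-- the path of a walk, with a constant piece at the end (only used in proofs) -/
noncomputable def Drawing.hol (D : Drawing G Z) :
    {x y : α} → Walk G x y → Path (D.pt x) (D.pt y)
  | x, _, .nil _ => Path.refl (D.pt x)
  | _, _, .cons _ h p => (D.path h).trans (D.hol p)

theorem walk_hol (D : Drawing G Z) {S : Set Z} {x y : α} (p : Walk G x y) (hx : D.pt x ∈ S)
    (hS : ∀ {e u w} (h : G.IsLink e u w), e ∈ p.edges → ∀ t, D.path h t ∈ S) :
    HomIn S (D.walk p) (D.hol p) := by
  induction p with
  | nil x => exact HomIn.refl (fun t => by simpa [Drawing.walk] using hx)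
  | @cons x y z e h p ih =>
    have h1 : ∀ t, D.path h t ∈ S := hS h (by simp [Walk.edges])
    have h2 : D.pt y ∈ S := by simpa using h1 1
    have h3 := ih h2 (fun {e u w} h he => hS h (by simp [Walk.edges, he]))
    cases p with
    | nil _ => exact (homIn_trans_refl h1).symm
    | cons e' h' p => exact (HomIn.refl h1).hcomp h3

/-- the union of the images of all closed cells with vertices in `S` -/
def FullMap.big (f : FullMap G Z) (S : Set α) : Set Z :=
  {z | ∃ s : Cell G, s.verts ⊆ S ∧ z ∈ f.image s}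

theorem big_disjoint {f : FullMap G Z} (hf : f.IsAlmostEmbedding) {S T : Set α}
    (hST : Disjoint S T) : Disjoint (f.big S) (f.big T) := by
  rw [Set.disjoint_left]
  rintro z ⟨s, hs, hz⟩ ⟨t, ht, hz'⟩
  exact Set.disjoint_left.1 (hf s t (hST.mono hs ht)) hz hz'

theorem big_mono (f : FullMap G Z) {S T : Set α} (h : S ⊆ T) : f.big S ⊆ f.big T := by
  rintro z ⟨s, hs, hz⟩
  exact ⟨s, hs.trans h, hz⟩

theorem pt_mem_big (f : FullMap G Z) {S : Set α} {x : α} (hx : x ∈ G.vertexSet) (hS : x ∈ S) :
    f.pt x ∈ f.big S :=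
  ⟨.vertex x hx, by simpa [Cell.verts] using hS, rfl⟩

theorem path_mem_big (f : FullMap G Z) {S : Set α} {e : β} {x y : α} (h : G.IsLink e x y)
    (hx : x ∈ S) (hy : y ∈ S) (t : I) : f.path h t ∈ f.big S := by
  refine ⟨.edge e h.edge_mem, ?_, ⟨x, y, h, ⟨t, rfl⟩⟩⟩
  rintro u ⟨w, hw⟩
  rcases hw.left_eq_or_eq h with rfl | rfl
  · exact hx
  · exact hy

theorem walk_mem_big (f : FullMap G Z) {S : Set α} {x y : α} (p : Walk G x y)
    (hx : x ∈ G.vertexSet) (hS : ∀ u ∈ p.support, u ∈ S) (t : I) : f.hol p t ∈ f.big S := by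
  induction p generalizing t with
  | nil x => exact pt_mem_big f hx (hS x (by simp [Walk.support]))
  | @cons x y z e h p ih =>
    have h1 : ∀ u ∈ p.support, u ∈ S := fun u hu => hS u (by simp [Walk.support, hu])
    exact trans_mem (path_mem_big f h (hS x (by simp [Walk.support]))
      (h1 y p.start_mem_support)) (ih h.right_mem h1) t

theorem walk_append (f : FullMap G Z) {S : Set α} {x y z : α} (p : Walk G x y) (q : Walk G y z)
    (hx : x ∈ G.vertexSet) (hp : ∀ u ∈ p.support, u ∈ S) (hq : ∀ u ∈ q.support, u ∈ S) :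
    HomIn (f.big S) (f.hol (p.append q)) ((f.hol p).trans (f.hol q)) := by
  induction p with
  | nil x => exact (homIn_refl_trans (walk_mem_big f q hx hq)).symm
  | @cons x y z e h p ih =>
    have h1 : ∀ u ∈ p.support, u ∈ S := fun u hu => hp u (by simp [Walk.support, hu])
    have hxS : x ∈ S := hp x (by simp [Walk.support])
    have hyS : y ∈ S := h1 y p.start_mem_support
    have h2 := ih q h.right_mem h1 hq
    refine HomIn.trans ((HomIn.refl (path_mem_big f h hxS hyS)).hcomp h2) ?_
    refine (homIn_assoc (path_mem_big f h hxS hyS) (walk_mem_big f p h.right_mem h1)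
      (walk_mem_big f q ?_ hq)).symm
    exact p.mem_vertexSet h.right_mem p.end_mem_support

theorem path_symm (f : FullMap G Z) {e : β} {x y : α} (h : G.IsLink e x y) :
    f.path h.symm = (f.path h).symm := by
  ext t
  exact f.arc_symm h t

theorem walk_reverse (f : FullMap G Z) {S : Set α} {x y : α} (p : Walk G x y)
    (hx : x ∈ G.vertexSet) (hp : ∀ u ∈ p.support, u ∈ S) :
    HomIn (f.big S) (f.hol p.reverse) (f.hol p).symm := by
  induction p with
  | nil x =>
    exact HomIn.refl (walk_mem_big f (.nil x) hx hp)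
  | @cons x y z e h p ih =>
    have h1 : ∀ u ∈ p.support, u ∈ S := fun u hu => hp u (by simp [Walk.support, hu])
    have hxS : x ∈ S := hp x (by simp [Walk.support])
    have hyS : y ∈ S := h1 y p.start_mem_support
    have h2 := ih h.right_mem h1
    have h3 : ∀ u ∈ p.reverse.support, u ∈ S := by
      intro u hu
      rw [Walk.support_reverse, List.mem_reverse] at hu
      exact h1 u hu
    have hz : z ∈ G.vertexSet := p.mem_vertexSet h.right_mem p.end_mem_support
    have h4 : ∀ u ∈ (Walk.cons e h.symm (.nil x)).support, u ∈ S := by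
      intro u hu
      simp only [Walk.support, List.mem_cons, List.not_mem_nil, or_false] at hu
      rcases hu with rfl | rfl
      · exact hyS
      · exact hxS
    refine (walk_append f p.reverse (.cons e h.symm (.nil x)) hz h3 h4).trans ?_
    have h5 : HomIn (f.big S) (f.hol (.cons e h.symm (.nil x))) (f.path h).symm := by
      rw [← path_symm]
      exact homIn_trans_refl (path_mem_big f h.symm hyS hxS)
    have h6 : (f.hol (.cons e h p)).symm = (f.hol p).symm.trans (f.path h).symm :=
      Path.trans_symm _ _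
    rw [h6]
    exact h2.hcomp h5

/-- every closed walk around a cycle is null-homotopic in the union of the closed cells with
vertices on the cycle -/
theorem cycle_null (f : FullMap G Z) {S : Set α} {x : α} (w : Walk G x x) (hw : w.IsCycle)
    (hS : ∀ u ∈ w.support, u ∈ S) :
    HomIn (f.big S) (f.hol w) (Path.refl (f.pt x)) := by
  have hx : x ∈ G.vertexSet := by
    cases w with
    | nil x => exact absurd rfl hw.1
    | cons e h p => exact h.left_mem
  have hC : IsCycleSet G {e | e ∈ w.edges} := ⟨x, w, hw, rfl⟩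
  have hb := f.bdry_isCycle _ hC
  have hbe := f.bdry_edges _ hC
  have hd : HomIn (f.big S) (f.walk (f.bdry _ hC)) (Path.refl (f.pt (f.base _ hC))) := by
    refine ⟨f.disc _ hC, fun t => ⟨.disc _ hC, ?_, ⟨t, rfl⟩⟩⟩
    rintro u ⟨e, he, hu⟩
    exact hS u (w.mem_support_of_edge he hu)
  revert hb hbe hd
  generalize f.bdry _ hC = b
  generalize f.base _ hC = x0 at b
  intro hb hbe hd
  have hE : ∀ e, e ∈ b.edges ↔ e ∈ w.edges := fun e => by
    have := congrArg (fun T : Set β => e ∈ T) hbe
    simpa using this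
  have hx0 : x0 ∈ G.vertexSet := by
    cases b with
    | nil x => exact absurd rfl hb.1
    | cons e h p => exact h.left_mem
  -- every vertex of `b` lies on `w`
  have hbS : ∀ u ∈ b.support, u ∈ S := by
    intro u hu
    obtain ⟨e, he, hu'⟩ := exists_edge_of_mem hb hu
    exact hS u (w.mem_support_of_edge ((hE e).1 he) hu')
  have hd : HomIn (f.big S) (f.hol b) (Path.refl (f.pt x0)) := by
    refine (walk_hol f.toDrawing b (pt_mem_big f hx0 (hbS x0 b.start_mem_support)) ?_).symm.trans hd
    intro e u w' h he t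
    exact path_mem_big f h (hbS u (b.end_mem_of_edge he h)) (hbS w' (b.end_mem_of_edge he h.symm)) t
  -- the start of `w` lies on `b`
  have hxb : x ∈ b.support := by
    cases w with
    | nil x => exact absurd rfl hw.1
    | cons e h p =>
      exact b.mem_support_of_edge ((hE e).2 (by simp [Walk.edges])) ⟨_, h⟩
  obtain ⟨b1, b2, rfl⟩ := b.exists_append_of_mem hxb
  have hs1 : ∀ u ∈ b1.support, u ∈ S := by
    intro u hu
    exact hbS u (by rw [Walk.support_append]; simp [hu])
  have hs2 : ∀ u ∈ b2.support, u ∈ S := by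
    intro u hu
    rw [Walk.support_eq_cons, List.mem_cons] at hu
    rcases hu with rfl | hu
    · exact hbS u hxb
    · exact hbS u (by rw [Walk.support_append]; simp [hu])
  have hrot : HomIn (f.big S) (f.hol (b2.append b1)) (Path.refl (f.pt x)) := by
    refine (walk_append f b2 b1 hx hs2 hs1).trans ?_
    refine HomIn.rotate (walk_mem_big f b1 hx0 hs1) (walk_mem_big f b2 hx hs2) ?_
    exact (walk_append f b1 b2 hx0 hs1 hs2).symm.trans hd
  have hcyc : (b2.append b1).IsCycle := by
    obtain ⟨h1, h2, h3⟩ := hb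
    refine ⟨?_, ?_, ?_⟩
    · rw [Walk.edges_append] at h1 ⊢
      intro h4
      rw [List.append_eq_nil_iff] at h4
      exact h1 (by rw [h4.1, h4.2]; rfl)
    · rw [Walk.edges_append] at h2 ⊢
      exact List.nodup_append_comm.1 h2
    · rw [Walk.support_append, Walk.support_eq_cons, List.cons_append, List.tail_cons] at h3 ⊢
      exact List.nodup_append_comm.1 h3
  have hE2 : ∀ e, e ∈ w.edges ↔ e ∈ (b2.append b1).edges := by
    intro e
    rw [← hE e, Walk.edges_append, Walk.edges_append, List.mem_append, List.mem_append, or_comm]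
  rcases Walk.eq_or_eq_reverse hw hcyc hE2 with h | h
  · rw [← h]
    exact hrot
  · have h1 : HomIn (f.big S) (f.hol w).symm (Path.refl (f.pt x)) := by
      refine (walk_reverse f w hx hS).symm.trans ?_
      rw [← h]
      exact hrot
    have h2 := h1.symm₂
    rwa [Path.symm_symm, Path.refl_symm] at h2

/-- every walk is homotopic to a walk without repeated vertices, in the union of the closed cells
with vertices on the walk -/
theorem exists_simple (f : FullMap G Z) {S : Set α} {x y : α} (p : Walk G x y)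
    (hx : x ∈ G.vertexSet) (hS : ∀ u ∈ p.support, u ∈ S) :
    ∃ q : Walk G x y, q.support.Nodup ∧ (∀ u ∈ q.support, u ∈ S) ∧
      HomIn (f.big S) (f.hol p) (f.hol q) := by
  induction p with
  | nil x => exact ⟨.nil x, by simp [Walk.support], hS, HomIn.refl (walk_mem_big f _ hx hS)⟩
  | @cons x y z e h p ih =>
    have h1 : ∀ u ∈ p.support, u ∈ S := fun u hu => hS u (by simp [Walk.support, hu])
    have hxS : x ∈ S := hS x (by simp [Walk.support])
    have hyS : y ∈ S := h1 y p.start_mem_support
    obtain ⟨q, hq, hqS, hpq⟩ := ih h.right_mem h1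
    have h3 : HomIn (f.big S) (f.hol (.cons e h p)) (f.hol (.cons e h q)) :=
      (HomIn.refl (path_mem_big f h hxS hyS)).hcomp hpq
    by_cases hxq : x ∈ q.support
    · obtain ⟨q1, q2, rfl⟩ := q.exists_append_of_mem hxq
      rw [Walk.support_append] at hq hqS
      have hq1 : q1.support.Nodup := hq.of_append_left
      have hq1S : ∀ u ∈ q1.support, u ∈ S := fun u hu => hqS u (by simp [hu])
      have hq2S : ∀ u ∈ q2.support, u ∈ S := by
        intro u hu
        rw [Walk.support_eq_cons, List.mem_cons] at hu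
        rcases hu with rfl | hu
        · exact hxS
        · exact hqS u (by simp [hu])
      have hq2 : q2.support.Nodup := by
        rw [Walk.support_eq_cons, List.nodup_cons]
        refine ⟨fun hu => ?_, hq.of_append_right⟩
        exact List.disjoint_of_nodup_append hq (q1.end_mem_support) hu
      refine ⟨q2, hq2, hq2S, h3.trans ?_⟩
      -- the closed walk `e, q1`
      have hc : HomIn (f.big S) ((f.path h).trans (f.hol q1)) (Path.refl (f.pt x)) := by
        by_cases he : e ∈ q1.edges
        · cases q1 with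
          | nil y => simp [Walk.edges] at he
          | @cons y u z' e1 h' r =>
            simp only [Walk.support, List.nodup_cons] at hq1
            simp only [Walk.edges, List.mem_cons] at he
            rcases he with rfl | he
            · obtain rfl : u = x := h'.right_unique h.symm
              obtain rfl := r.eq_nil_of_nodup hq1.2
              have h4 : f.path h' = (f.path h).symm := path_symm f h
              have h5 : HomIn (f.big S) (f.hol (.cons e h' (.nil u))) (f.path h').symm.symm := by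
                rw [Path.symm_symm]
                exact homIn_trans_refl (path_mem_big f h' hyS hxS)
              refine HomIn.trans ((HomIn.refl (path_mem_big f h hxS hyS)).hcomp h5) ?_
              rw [Path.symm_symm, h4]
              exact homIn_trans_symm (path_mem_big f h hxS hyS)
            · exact absurd (r.end_mem_of_edge he h.symm) hq1.1
        · have hcyc : (Walk.cons e h q1).IsCycle := Walk.isCycle_cons.2 ⟨he, hq1⟩
          refine cycle_null f (.cons e h q1) hcyc ?_
          intro u hu
          simp only [Walk.support, List.mem_cons] at hu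
          rcases hu with rfl | hu
          · exact hxS
          · exact hq1S u hu
      have h6 : HomIn (f.big S) (f.hol (.cons e h (q1.append q2)))
          ((f.path h).trans ((f.hol q1).trans (f.hol q2))) :=
        (HomIn.refl (path_mem_big f h hxS hyS)).hcomp
          (walk_append f q1 q2 h.right_mem hq1S hq2S)
      refine h6.trans ((homIn_assoc (path_mem_big f h hxS hyS)
        (walk_mem_big f q1 h.right_mem hq1S) (walk_mem_big f q2 hx hq2S)).symm.trans ?_)
      exact (hc.hcomp (HomIn.refl (walk_mem_big f q2 hx hq2S))).trans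
        (homIn_refl_trans (walk_mem_big f q2 hx hq2S))
    · refine ⟨.cons e h q, ?_, ?_, h3⟩
      · simp only [Walk.support, List.nodup_cons]
        exact ⟨hxq, hq⟩
      · intro u hu
        simp only [Walk.support, List.mem_cons] at hu
        rcases hu with rfl | hu
        · exact hxS
        · exact hqS u hu

/-- every closed walk is null-homotopic in the union of the closed cells with vertices on it -/
theorem closed_null (f : FullMap G Z) {S : Set α} {x : α} (p : Walk G x x)
    (hx : x ∈ G.vertexSet) (hS : ∀ u ∈ p.support, u ∈ S) :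
    HomIn (f.big S) (f.hol p) (Path.refl (f.pt x)) := by
  obtain ⟨q, hq, hqS, h⟩ := exists_simple f p hx hS
  obtain rfl := q.eq_nil_of_nodup hq
  exact h


/-- The transfer principle: `H` has (some of) the vertices of `G`, every link of `H` is drawn
along a walk of `G`, and a vertex set `A` of `H` occupies the vertex set `M A` of `G`. -/
theorem transfer (f : FullMap G Z) (hf : f.IsAlmostEmbedding) (H : Graph α β)
    (M : Set α → Set α)
    (hM : ∀ A B, A ⊆ H.vertexSet → B ⊆ H.vertexSet → Disjoint A B → Disjoint (M A) (M B))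
    (hmono : ∀ A B, A ⊆ B → M A ⊆ M B) (hself : ∀ A, A ⊆ M A)
    (hV : H.vertexSet ⊆ G.vertexSet)
    (arc : β → α → α → C(I, Z))
    (h0 : ∀ {e x y}, H.IsLink e x y → arc e x y 0 = f.pt x)
    (h1 : ∀ {e x y}, H.IsLink e x y → arc e x y 1 = f.pt y)
    (hs : ∀ {e x y}, H.IsLink e x y → ∀ t, arc e y x t = arc e x y (σ t))
    (hw : ∀ {e x y} (h : H.IsLink e x y), ∃ w : Walk G x y, (∀ u ∈ w.support, u ∈ M {x, y}) ∧
      HomIn (f.big (M {x, y})) (⟨arc e x y, h0 h, h1 h⟩ : Path (f.pt x) (f.pt y)) (f.hol w)) :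
    AlmostEmbeds H Z := by
  let D : Drawing H Z := ⟨f.pt, arc, h0, h1, hs⟩
  -- walks of `H` become walks of `G`
  have key : ∀ {A : Set α} {x y : α} (p : Walk H x y), x ∈ H.vertexSet →
      (∀ u ∈ p.support, u ∈ A) → ∃ w : Walk G x y, (∀ u ∈ w.support, u ∈ M A) ∧
      HomIn (f.big (M A)) (D.hol p) (f.hol w) := by
    intro A x y p hx hA
    induction p with
    | nil x =>
      have h2 : ∀ u ∈ (Walk.nil x : Walk G x x).support, u ∈ M A := by
        intro u hu
        simp only [Walk.support, List.mem_singleton] at hu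
        exact hu ▸ hself A (hA x (by simp [Walk.support]))
      exact ⟨.nil x, h2, HomIn.refl (walk_mem_big f (.nil x) (hV hx) h2)⟩
    | @cons x y z e h p ih =>
      have hA' : ∀ u ∈ p.support, u ∈ A := fun u hu => hA u (by simp [Walk.support, hu])
      obtain ⟨w, hwA, hpw⟩ := ih h.right_mem hA'
      obtain ⟨w1, hw1A, hew⟩ := hw h
      have hsub : ({x, y} : Set α) ⊆ A := by
        rintro u (rfl | rfl)
        · exact hA u (by simp [Walk.support])
        · exact hA' u p.start_mem_support
      have hw1A' : ∀ u ∈ w1.support, u ∈ M A := fun u hu => hmono _ _ hsub (hw1A u hu)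
      refine ⟨w1.append w, ?_, ?_⟩
      · intro u hu
        rw [Walk.support_append, List.mem_append] at hu
        rcases hu with hu | hu
        · exact hw1A' u hu
        · exact hwA u (List.mem_of_mem_tail hu)
      · refine HomIn.trans ?_ (walk_append f w1 w (hV hx) hw1A' hwA).symm
        exact (hew.mono (big_mono f (hmono _ _ hsub))).hcomp hpw
  -- the boundary walks and the discs
  choose base0 bdry0 hb using fun (C : Set β) (hC : IsCycleSet H C) => hC
  have hbase : ∀ C hC, base0 C hC ∈ H.vertexSet := by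
    intro C hC
    have h2 := (hb C hC).1
    revert h2
    generalize bdry0 C hC = b
    generalize base0 C hC = x0 at b
    intro h2
    cases b with
    | nil x => exact absurd rfl h2.1
    | cons e h p => exact h.left_mem
  have hrange : ∀ {e x y} (h : H.IsLink e x y) (t : I), arc e x y t ∈ f.big (M {x, y}) := by
    intro e x y h t
    obtain ⟨w, hwA, F, hF⟩ := hw h
    have h3 := hF (0, t)
    have h4 : F (0, t) = arc e x y t := F.apply_zero t
    rwa [h4] at h3
  have hdisc : ∀ C hC, HomIn (f.big (M {u | u ∈ (bdry0 C hC).support}))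
      (D.walk (bdry0 C hC)) (Path.refl (f.pt (base0 C hC))) := by
    intro C hC
    obtain ⟨w, hwA, h2⟩ := key (A := {u | u ∈ (bdry0 C hC).support}) (bdry0 C hC) (hbase C hC)
      (fun u hu => hu)
    refine (walk_hol D (bdry0 C hC) ?_ ?_).trans
      (h2.trans (closed_null f w (hV (hbase C hC)) hwA))
    · exact pt_mem_big f (hV (hbase C hC)) (hself _ (bdry0 C hC).start_mem_support)
    · intro e u w' h he t
      refine big_mono f (hmono _ _ ?_) (hrange h t)
      rintro z (rfl | rfl)
      · exact (bdry0 C hC).end_mem_of_edge he h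
      · exact (bdry0 C hC).end_mem_of_edge he h.symm
  choose disc0 hdisc0 using hdisc
  let f' : FullMap H Z :=
    { toDrawing := D
      base := base0
      bdry := bdry0
      bdry_isCycle := fun C hC => (hb C hC).1
      bdry_edges := fun C hC => (hb C hC).2
      disc := disc0 }
  refine ⟨f', ?_⟩
  -- every closed cell is mapped to the union of the closed cells over `M` of its vertices
  have himg : ∀ s : Cell H, f'.image s ⊆ f.big (M s.verts) ∧ s.verts ⊆ H.vertexSet := by
    intro s
    cases s with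
    | vertex x hx =>
      refine ⟨?_, by simpa [Cell.verts] using hx⟩
      rintro z rfl
      exact pt_mem_big f (hV hx) (hself _ rfl)
    | edge e he =>
      refine ⟨?_, fun u hu => ?_⟩
      · rintro z ⟨x, y, hl, t, rfl⟩
        have h2 : ({x, y} : Set α) ⊆ (Cell.edge e he).verts := by
          rintro u (rfl | rfl)
          · exact ⟨_, hl⟩
          · exact ⟨_, hl.symm⟩
        exact big_mono f (hmono _ _ h2) (hrange hl t)
      · obtain ⟨w, hw'⟩ := hu
        exact hw'.left_mem
    | disc C hC =>
      have h2 : {u | u ∈ (bdry0 C hC).support} ⊆ (Cell.disc C hC).verts := by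
        intro u hu
        obtain ⟨e, he, hu'⟩ := exists_edge_of_mem (hb C hC).1 hu
        refine ⟨e, ?_, hu'⟩
        have h3 := (hb C hC).2
        exact h3 ▸ he
      refine ⟨?_, fun u hu => ?_⟩
      · rintro z ⟨t, rfl⟩
        exact big_mono f (hmono _ _ h2) (hdisc0 C hC t)
      · obtain ⟨e, -, w, hw'⟩ := hu
        exact hw'.left_mem
  intro s t hst
  exact (big_disjoint hf (hM _ _ (himg s).2 (himg t).2 hst)).mono (himg s).1 (himg t).1

/-- the Y-Delta transformation is always possible -/
theorem exists_yDelta (G : Graph α β) {v a b c : α} {ea eb ec : β} (la : G.IsLink ea v a)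
    (lb : G.IsLink eb v b) (lc : G.IsLink ec v c)
    (only : ∀ e, G.Inc e v → e = ea ∨ e = eb ∨ e = ec) (va : v ≠ a) (vb : v ≠ b) (vc : v ≠ c)
    (ab : a ≠ b) (bc : b ≠ c) (ca : c ≠ a) : ∃ H : Graph α β, IsYDelta G H v a b c ea eb ec := by
  have hab : ea ≠ eb := fun h2 => ab (la.right_unique (h2 ▸ lb))
  have hbc : eb ≠ ec := fun h2 => bc (lb.right_unique (h2 ▸ lc))
  have hca : ec ≠ ea := fun h2 => ca (lc.right_unique (h2 ▸ la))
  let L : β → α → α → Prop := fun e x y =>
    (e ≠ ea ∧ e ≠ eb ∧ e ≠ ec ∧ G.IsLink e x y) ∨ (e = ea ∧ s(x, y) = s(b, c)) ∨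
    (e = eb ∧ s(x, y) = s(c, a)) ∨ (e = ec ∧ s(x, y) = s(a, b))
  refine ⟨{ vertexSet := G.vertexSet \ {v}
            IsLink := L
            edgeSet := {e | ∃ x y, L e x y}
            isLink_symm := ?_
            eq_or_eq_of_isLink_of_isLink := ?_
            edge_mem_iff_exists_isLink := fun e => Iff.rfl
            left_mem_of_isLink := ?_ }, la, lb, lc, only, va, vb, vc, ab, bc, ca, rfl,
            fun e x y => Iff.rfl⟩
  · intro e _
    constructor
    intro x y h
    rcases h with ⟨h1, h2, h3, h4⟩ | ⟨h1, h2⟩ | ⟨h1, h2⟩ | ⟨h1, h2⟩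
    · exact Or.inl ⟨h1, h2, h3, h4.symm⟩
    · exact Or.inr (Or.inl ⟨h1, by rw [Sym2.eq_swap]; exact h2⟩)
    · exact Or.inr (Or.inr (Or.inl ⟨h1, by rw [Sym2.eq_swap]; exact h2⟩))
    · exact Or.inr (Or.inr (Or.inr ⟨h1, by rw [Sym2.eq_swap]; exact h2⟩))
  · intro e x y z w h h'
    have hs : ∀ {p q r s t u : α}, s(p, q) = s(t, u) → s(r, s) = s(t, u) → p = r ∨ p = s := by
      intro p q r s t u k1 k2
      rw [← k2, Sym2.eq_iff] at k1
      rcases k1 with k1 | k1
      · exact Or.inl k1.1
      · exact Or.inr k1.1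
    rcases h with ⟨h1, h2, h3, h4⟩ | ⟨h1, h2⟩ | ⟨h1, h2⟩ | ⟨h1, h2⟩ <;>
    rcases h' with ⟨k1, k2, k3, k4⟩ | ⟨k1, k2⟩ | ⟨k1, k2⟩ | ⟨k1, k2⟩ <;>
    first
      | exact h4.left_eq_or_eq k4
      | exact absurd k1 h1
      | exact absurd k1 h2
      | exact absurd k1 h3
      | exact absurd h1 k1
      | exact absurd h1 k2
      | exact absurd h1 k3
      | exact hs h2 k2
      | exact absurd (h1.symm.trans k1) hab
      | exact absurd (k1.symm.trans h1) hab
      | exact absurd (h1.symm.trans k1) hbc
      | exact absurd (k1.symm.trans h1) hbc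
      | exact absurd (h1.symm.trans k1) hca
      | exact absurd (k1.symm.trans h1) hca
  · intro e x y h
    have hk : ∀ {p q : α}, s(x, y) = s(p, q) → p ∈ G.vertexSet \ {v} → q ∈ G.vertexSet \ {v} →
        x ∈ G.vertexSet \ {v} := by
      intro p q k hp hq
      rw [Sym2.eq_iff] at k
      rcases k with ⟨rfl, -⟩ | ⟨rfl, -⟩
      · exact hp
      · exact hq
    have ha : a ∈ G.vertexSet \ {v} := ⟨la.right_mem, va.symm⟩
    have hb : b ∈ G.vertexSet \ {v} := ⟨lb.right_mem, vb.symm⟩
    have hc : c ∈ G.vertexSet \ {v} := ⟨lc.right_mem, vc.symm⟩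
    rcases h with ⟨h1, h2, h3, h4⟩ | ⟨h1, h2⟩ | ⟨h1, h2⟩ | ⟨h1, h2⟩
    · refine ⟨h4.left_mem, ?_⟩
      rintro rfl
      rcases only e ⟨_, h4⟩ with h5 | h5 | h5
      · exact h1 h5
      · exact h2 h5
      · exact h3 h5
    · exact hk h2 hb hc
    · exact hk h2 hc ha
    · exact hk h2 ha hb

/-- the path `x v y` -/
noncomputable def via (f : Drawing G Z) {e1 e2 : β} {x v y : α} (h1 : G.IsLink e1 x v)
    (h2 : G.IsLink e2 v y) : C(I, Z) :=
  ((f.path h1).trans (f.path h2)).toContinuousMap

theorem via_zero (f : Drawing G Z) {e1 e2 : β} {x v y : α} (h1 : G.IsLink e1 x v)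
    (h2 : G.IsLink e2 v y) : via f h1 h2 0 = f.pt x :=
  ((f.path h1).trans (f.path h2)).source

theorem via_one (f : Drawing G Z) {e1 e2 : β} {x v y : α} (h1 : G.IsLink e1 x v)
    (h2 : G.IsLink e2 v y) : via f h1 h2 1 = f.pt y :=
  ((f.path h1).trans (f.path h2)).target

theorem via_symm (f : Drawing G Z) {e1 e2 : β} {x v y : α} (h1 : G.IsLink e1 x v)
    (h2 : G.IsLink e2 v y) (t : I) : via f h2.symm h1.symm t = via f h1 h2 (σ t) := by
  have h3 : (f.path h2.symm).trans (f.path h1.symm) =
      ((f.path h1).trans (f.path h2)).symm := by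
    rw [Path.trans_symm]
    congr 1
    · ext s
      exact f.arc_symm h2 s
    · ext s
      exact f.arc_symm h1 s
  exact congrArg (fun p : Path _ _ => p t) h3

theorem via_walk (f : FullMap G Z) {S : Set α} {e1 e2 : β} {x v y : α} (h1 : G.IsLink e1 x v)
    (h2 : G.IsLink e2 v y) (hx : x ∈ S) (hv : v ∈ S) (hy : y ∈ S) :
    HomIn (f.big S) (⟨via f.toDrawing h1 h2, via_zero _ h1 h2, via_one _ h1 h2⟩ :
      Path (f.pt x) (f.pt y)) (f.hol (.cons e1 h1 (.cons e2 h2 (.nil y)))) :=
  (HomIn.refl (path_mem_big f h1 hx hv)).hcomp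
    (homIn_trans_refl (path_mem_big f h2 hv hy)).symm

theorem arc_walk (f : FullMap G Z) {S : Set α} {e : β} {x y : α} (h : G.IsLink e x y)
    (hx : x ∈ S) (hy : y ∈ S) :
    HomIn (f.big S) (f.path h) (f.hol (.cons e h (.nil y))) :=
  (homIn_trans_refl (path_mem_big f h hx hy)).symm

theorem almostEmbeds_of_yDelta {H : Graph α β} {v a b c : α} {ea eb ec : β}
    (h : IsYDelta G H v a b c ea eb ec) (hG : AlmostEmbeds G Z) : AlmostEmbeds H Z := by
  classical
  obtain ⟨f, hf⟩ := hG
  have la := h.linkA
  have lb := h.linkB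
  have lc := h.linkC
  have hab : ea ≠ eb := fun h2 => h.ab (la.right_unique (h2 ▸ lb))
  have hbc : eb ≠ ec := fun h2 => h.bc (lb.right_unique (h2 ▸ lc))
  have hca : ec ≠ ea := fun h2 => h.ca (lc.right_unique (h2 ▸ la))
  let arc : β → α → α → C(I, Z) := fun e x y =>
    if e = ea then (if x = b then via f.toDrawing lb.symm lc else via f.toDrawing lc.symm lb)
    else if e = eb then
      (if x = c then via f.toDrawing lc.symm la else via f.toDrawing la.symm lc)
    else if e = ec then
      (if x = a then via f.toDrawing la.symm lb else via f.toDrawing lb.symm la)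
    else f.arc e x y
  have arc1 : arc ea b c = via f.toDrawing lb.symm lc := by simp [arc]
  have arc1' : arc ea c b = via f.toDrawing lc.symm lb := by simp [arc, h.bc.symm]
  have arc2 : arc eb c a = via f.toDrawing lc.symm la := by simp [arc, hab.symm]
  have arc2' : arc eb a c = via f.toDrawing la.symm lc := by simp [arc, hab.symm, h.ca.symm]
  have arc3 : arc ec a b = via f.toDrawing la.symm lb := by simp [arc, hca, hbc.symm]
  have arc3' : arc ec b a = via f.toDrawing lb.symm la := by
    simp [arc, hca, hbc.symm, h.ab.symm]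
  have arc4 : ∀ e x y, e ≠ ea → e ≠ eb → e ≠ ec → arc e x y = f.arc e x y := by
    intro e x y h1 h2 h3
    simp [arc, h1, h2, h3]
  -- the links of `H`
  have cases' : ∀ {e x y}, H.IsLink e x y →
      (e ≠ ea ∧ e ≠ eb ∧ e ≠ ec ∧ G.IsLink e x y) ∨
      (e = ea ∧ x = b ∧ y = c) ∨ (e = ea ∧ x = c ∧ y = b) ∨
      (e = eb ∧ x = c ∧ y = a) ∨ (e = eb ∧ x = a ∧ y = c) ∨
      (e = ec ∧ x = a ∧ y = b) ∨ (e = ec ∧ x = b ∧ y = a) := by
    intro e x y hl
    rcases (h.link e x y).1 hl with h1 | ⟨h1, h2⟩ | ⟨h1, h2⟩ | ⟨h1, h2⟩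
    · exact Or.inl h1
    all_goals
      rw [Sym2.eq_iff] at h2
      rcases h2 with h2 | h2 <;> simp [h1, h2]
  let M : Set α → Set α := fun A => {u | u ∈ A ∨
    (u = v ∧ ((a ∈ A ∧ b ∈ A) ∨ (b ∈ A ∧ c ∈ A) ∨ (c ∈ A ∧ a ∈ A)))}
  refine transfer f hf H M ?_ ?_ ?_ ?_ arc ?_ ?_ ?_ ?_
  · -- disjoint sets
    intro A B hA hB hAB
    rw [h.verts] at hA hB
    have hvA : v ∉ A := fun h2 => (hA h2).2 rfl
    have hvB : v ∉ B := fun h2 => (hB h2).2 rfl
    have hd : ∀ u, u ∈ A → u ∈ B → False := fun u h2 h3 => Set.disjoint_left.1 hAB h2 h3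
    rw [Set.disjoint_left]
    rintro u (h2 | ⟨rfl, h2⟩) (h3 | ⟨h4, h3⟩)
    · exact hd u h2 h3
    · exact hvA (h4 ▸ h2)
    · exact hvB h3
    · rcases h2 with ⟨p, q⟩ | ⟨p, q⟩ | ⟨p, q⟩ <;> rcases h3 with ⟨r, s⟩ | ⟨r, s⟩ | ⟨r, s⟩ <;>
      first
        | exact hd _ p r
        | exact hd _ p s
        | exact hd _ q r
  · -- monotone
    rintro A B hAB u (h2 | ⟨rfl, h2⟩)
    · exact Or.inl (hAB h2)
    · refine Or.inr ⟨rfl, ?_⟩
      rcases h2 with ⟨p, q⟩ | ⟨p, q⟩ | ⟨p, q⟩
      · exact Or.inl ⟨hAB p, hAB q⟩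
      · exact Or.inr (Or.inl ⟨hAB p, hAB q⟩)
      · exact Or.inr (Or.inr ⟨hAB p, hAB q⟩)
  · exact fun A u hu => Or.inl hu
  · rw [h.verts]
    exact Set.sdiff_subset
  · intro e x y hl
    rcases cases' hl with ⟨h1, h2, h3, h4⟩ | ⟨rfl, rfl, rfl⟩ | ⟨rfl, rfl, rfl⟩ | ⟨rfl, rfl, rfl⟩ |
      ⟨rfl, rfl, rfl⟩ | ⟨rfl, rfl, rfl⟩ | ⟨rfl, rfl, rfl⟩
    · rw [arc4 e x y h1 h2 h3]; exact f.arc_zero h4
    · rw [arc1]; exact via_zero _ _ _
    · rw [arc1']; exact via_zero _ _ _
    · rw [arc2]; exact via_zero _ _ _
    · rw [arc2']; exact via_zero _ _ _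
    · rw [arc3]; exact via_zero _ _ _
    · rw [arc3']; exact via_zero _ _ _
  · intro e x y hl
    rcases cases' hl with ⟨h1, h2, h3, h4⟩ | ⟨rfl, rfl, rfl⟩ | ⟨rfl, rfl, rfl⟩ | ⟨rfl, rfl, rfl⟩ |
      ⟨rfl, rfl, rfl⟩ | ⟨rfl, rfl, rfl⟩ | ⟨rfl, rfl, rfl⟩
    · rw [arc4 e x y h1 h2 h3]; exact f.arc_one h4
    · rw [arc1]; exact via_one _ _ _
    · rw [arc1']; exact via_one _ _ _
    · rw [arc2]; exact via_one _ _ _
    · rw [arc2']; exact via_one _ _ _
    · rw [arc3]; exact via_one _ _ _
    · rw [arc3']; exact via_one _ _ _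
  · intro e x y hl t
    rcases cases' hl with ⟨h1, h2, h3, h4⟩ | ⟨rfl, rfl, rfl⟩ | ⟨rfl, rfl, rfl⟩ | ⟨rfl, rfl, rfl⟩ |
      ⟨rfl, rfl, rfl⟩ | ⟨rfl, rfl, rfl⟩ | ⟨rfl, rfl, rfl⟩
    · rw [arc4 e x y h1 h2 h3, arc4 e y x h1 h2 h3]; exact f.arc_symm h4 t
    · rw [arc1, arc1']; exact via_symm _ _ _ _
    · rw [arc1, arc1']; exact via_symm _ _ _ _
    · rw [arc2, arc2']; exact via_symm _ _ _ _
    · rw [arc2, arc2']; exact via_symm _ _ _ _
    · rw [arc3, arc3']; exact via_symm _ _ _ _
    · rw [arc3, arc3']; exact via_symm _ _ _ _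
  · intro e x y hl
    have conv : ∀ {x y : α} (g g' : C(I, Z)) (_ : g = g') (h0 : g 0 = f.pt x) (h1 : g 1 = f.pt y)
        (h0' : g' 0 = f.pt x) (h1' : g' 1 = f.pt y),
        (⟨g, h0, h1⟩ : Path (f.pt x) (f.pt y)) = ⟨g', h0', h1'⟩ := by
      intro x y g g' hg h0 h1 h0' h1'
      subst hg
      rfl
    have key : ∀ {x' y' : α} {e1 e2 : β} (k1 : G.IsLink e1 x' v) (k2 : G.IsLink e2 v y'),
        v ∈ M {x', y'} → (∀ u ∈ (Walk.cons e1 k1 (.cons e2 k2 (.nil y'))).support,
          u ∈ M {x', y'}) ∧ HomIn (f.big (M {x', y'}))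
          (⟨via f.toDrawing k1 k2, via_zero _ k1 k2, via_one _ k1 k2⟩ :
            Path (f.pt x') (f.pt y')) (f.hol (.cons e1 k1 (.cons e2 k2 (.nil y')))) := by
      intro x' y' e1 e2 k1 k2 hv
      have hx' : x' ∈ M {x', y'} := Or.inl (by simp)
      have hy' : y' ∈ M {x', y'} := Or.inl (by simp)
      refine ⟨?_, via_walk f k1 k2 hx' hv hy'⟩
      intro u hu
      simp only [Walk.support, List.mem_cons, List.not_mem_nil, or_false] at hu
      rcases hu with rfl | rfl | rfl
      · exact hx'
      · exact hv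
      · exact hy'
    rcases cases' hl with ⟨h1, h2, h3, h4⟩ | ⟨rfl, rfl, rfl⟩ | ⟨rfl, rfl, rfl⟩ | ⟨rfl, rfl, rfl⟩ |
      ⟨rfl, rfl, rfl⟩ | ⟨rfl, rfl, rfl⟩ | ⟨rfl, rfl, rfl⟩
    · have hx' : x ∈ M {x, y} := Or.inl (by simp)
      have hy' : y ∈ M {x, y} := Or.inl (by simp)
      refine ⟨.cons e h4 (.nil y), ?_, ?_⟩
      · intro u hu
        simp only [Walk.support, List.mem_cons, List.not_mem_nil, or_false] at hu
        rcases hu with rfl | rfl
        · exact hx'
        · exact hy'
      · rw [conv _ _ (arc4 e x y h1 h2 h3) _ _ (f.arc_zero h4) (f.arc_one h4)]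
        exact arc_walk f h4 hx' hy'
    · have k := key lb.symm lc (Or.inr ⟨rfl, by simp⟩)
      exact ⟨_, k.1, by rw [conv _ _ arc1 _ _ (via_zero _ _ _) (via_one _ _ _)]; exact k.2⟩
    · have k := key lc.symm lb (Or.inr ⟨rfl, by simp⟩)
      exact ⟨_, k.1, by rw [conv _ _ arc1' _ _ (via_zero _ _ _) (via_one _ _ _)]; exact k.2⟩
    · have k := key lc.symm la (Or.inr ⟨rfl, by simp⟩)
      exact ⟨_, k.1, by rw [conv _ _ arc2 _ _ (via_zero _ _ _) (via_one _ _ _)]; exact k.2⟩
    · have k := key la.symm lc (Or.inr ⟨rfl, by simp⟩)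
      exact ⟨_, k.1, by rw [conv _ _ arc2' _ _ (via_zero _ _ _) (via_one _ _ _)]; exact k.2⟩
    · have k := key la.symm lb (Or.inr ⟨rfl, by simp⟩)
      exact ⟨_, k.1, by rw [conv _ _ arc3 _ _ (via_zero _ _ _) (via_one _ _ _)]; exact k.2⟩
    · have k := key lb.symm la (Or.inr ⟨rfl, by simp⟩)
      exact ⟨_, k.1, by rw [conv _ _ arc3' _ _ (via_zero _ _ _) (via_one _ _ _)]; exact k.2⟩


/-- a walk of a subgraph -/
theorem almostEmbeds_of_le {H : Graph α β} (h : H ≤ G) (hG : AlmostEmbeds G Z) :
    AlmostEmbeds H Z := by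
  obtain ⟨f, hf⟩ := hG
  refine transfer f hf H id (fun A B _ _ hAB => hAB) (fun A B hAB => hAB)
    (fun A => subset_rfl) h.1 f.arc (fun hl => f.arc_zero (h.2 hl)) (fun hl => f.arc_one (h.2 hl))
    (fun hl t => f.arc_symm (h.2 hl) t) ?_
  intro e x y hl
  refine ⟨.cons e (h.2 hl) (.nil y), ?_, arc_walk f (h.2 hl) (by simp) (by simp)⟩
  intro u hu
  simpa [Walk.support] using hu

theorem almostEmbeds_of_doubling {H : Graph α β} {e0 e1 : β} (h : IsDoubling G H e0 e1)
    (hG : AlmostEmbeds G Z) : AlmostEmbeds H Z := by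
  classical
  obtain ⟨f, hf⟩ := hG
  let r : β → β := fun e => if e = e1 then e0 else e
  have hr : ∀ {e x y}, H.IsLink e x y → G.IsLink (r e) x y := by
    intro e x y hl
    by_cases he : e = e1
    · subst he
      rcases (h.link e x y).1 hl with h1 | h1
      · exact absurd h1.edge_mem h.notMem
      · simpa [r] using h1.2
    · rcases (h.link e x y).1 hl with h1 | h1
      · simpa [r, he] using h1
      · exact absurd h1.1 he
  refine transfer f hf H id (fun A B _ _ hAB => hAB) (fun A B hAB => hAB)
    (fun A => subset_rfl) h.verts.le (fun e x y => f.arc (r e) x y)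
    (fun hl => f.arc_zero (hr hl)) (fun hl => f.arc_one (hr hl))
    (fun hl t => f.arc_symm (hr hl) t) ?_
  intro e x y hl
  refine ⟨.cons (r e) (hr hl) (.nil y), ?_, arc_walk f (hr hl) (by simp) (by simp)⟩
  intro u hu
  simpa [Walk.support] using hu

theorem almostEmbeds_of_contraction {H : Graph α β} {e0 : β} {x0 y0 : α}
    (h : IsContraction G H e0 x0 y0) (hG : AlmostEmbeds G Z) : AlmostEmbeds H Z := by
  classical
  obtain ⟨f, hf⟩ := hG
  have l0 := h.link0
  let arc : β → α → α → C(I, Z) := fun e x y =>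
    if G.IsLink e x y then f.arc e x y
    else if k : G.IsLink e y0 y then via f.toDrawing l0 k
    else if k : G.IsLink e x y0 then via f.toDrawing k l0.symm
    else f.arc e x y
  -- the links of `H`
  have cases' : ∀ {e x y}, H.IsLink e x y → x ≠ y0 ∧ y ≠ y0 ∧ x ≠ y ∧
      (G.IsLink e x y ∨ (x = x0 ∧ ¬ G.IsLink e x y ∧ G.IsLink e y0 y) ∨
        (y = x0 ∧ ¬ G.IsLink e x y ∧ ¬ G.IsLink e y0 y ∧ G.IsLink e x y0)) := by
    intro e x y hl
    obtain ⟨hxy, x', y', hl', hx, hy⟩ := (h.link e x y).1 hl
    have hx0 : x ≠ y0 := by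
      rcases hx with ⟨h1, rfl⟩ | ⟨h1, rfl⟩
      · exact h1
      · exact h.ne
    have hy0 : y ≠ y0 := by
      rcases hy with ⟨h1, rfl⟩ | ⟨h1, rfl⟩
      · exact h1
      · exact h.ne
    refine ⟨hx0, hy0, hxy, ?_⟩
    by_cases h3 : G.IsLink e x y
    · exact Or.inl h3
    · right
      rcases hx with ⟨h1, rfl⟩ | ⟨rfl, rfl⟩
      · rcases hy with ⟨h2, rfl⟩ | ⟨rfl, rfl⟩
        · exact absurd hl' h3
        · right
          refine ⟨rfl, h3, ?_, hl'⟩
          intro h4
          rcases h4.left_eq_or_eq hl' with h5 | h5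
          · exact h1 h5.symm
          · exact hxy (hl'.symm.right_unique h4)
      · rcases hy with ⟨h2, rfl⟩ | ⟨rfl, rfl⟩
        · exact Or.inl ⟨rfl, h3, hl'⟩
        · exact absurd rfl hxy
  have arcA : ∀ e x y, G.IsLink e x y → arc e x y = f.arc e x y := by
    intro e x y k
    simp [arc, k]
  have arcB : ∀ e x y, ¬ G.IsLink e x y → ∀ k : G.IsLink e y0 y,
      arc e x y = via f.toDrawing l0 k := by
    intro e x y k1 k
    simp [arc, k1, k]
  have arcC : ∀ e x y, ¬ G.IsLink e x y → ¬ G.IsLink e y0 y → ∀ k : G.IsLink e x y0,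
      arc e x y = via f.toDrawing k l0.symm := by
    intro e x y k1 k2 k
    simp [arc, k1, k2, k]
  let M : Set α → Set α := fun A => {u | u ∈ A ∨ (u = y0 ∧ x0 ∈ A)}
  refine transfer f hf H M ?_ ?_ ?_ ?_ arc ?_ ?_ ?_ ?_
  · intro A B hA hB hAB
    rw [h.verts] at hA hB
    have hvA : y0 ∉ A := fun h2 => (hA h2).2 rfl
    have hvB : y0 ∉ B := fun h2 => (hB h2).2 rfl
    have hd : ∀ u, u ∈ A → u ∈ B → False := fun u h2 h3 => Set.disjoint_left.1 hAB h2 h3
    rw [Set.disjoint_left]
    rintro u (h2 | ⟨rfl, h2⟩) (h3 | ⟨h4, h3⟩)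
    · exact hd u h2 h3
    · exact hvA (h4 ▸ h2)
    · exact hvB h3
    · exact hd _ h2 h3
  · rintro A B hAB u (h2 | ⟨rfl, h2⟩)
    · exact Or.inl (hAB h2)
    · exact Or.inr ⟨rfl, hAB h2⟩
  · exact fun A u hu => Or.inl hu
  · rw [h.verts]
    exact Set.sdiff_subset
  · intro e x y hl
    obtain ⟨hx0, hy0, hxy, k | ⟨rfl, k1, k⟩ | ⟨rfl, k1, k2, k⟩⟩ := cases' hl
    · rw [arcA e x y k]; exact f.arc_zero k
    · rw [arcB e x y k1 k]; exact via_zero _ _ _
    · rw [arcC e x y k1 k2 k]; exact via_zero _ _ _
  · intro e x y hl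
    obtain ⟨hx0, hy0, hxy, k | ⟨rfl, k1, k⟩ | ⟨rfl, k1, k2, k⟩⟩ := cases' hl
    · rw [arcA e x y k]; exact f.arc_one k
    · rw [arcB e x y k1 k]; exact via_one _ _ _
    · rw [arcC e x y k1 k2 k]; exact via_one _ _ _
  · intro e x y hl t
    obtain ⟨hx0, hy0, hxy, k | ⟨rfl, k1, k⟩ | ⟨rfl, k1, k2, k⟩⟩ := cases' hl
    · rw [arcA e x y k, arcA e y x k.symm]; exact f.arc_symm k t
    · have k3 : ¬ G.IsLink e y x := fun h => k1 h.symm
      have k4 : ¬ G.IsLink e y0 x := fun h => hxy (h.right_unique k)
      rw [arcB e x y k1 k, arcC e y x k3 k4 k.symm]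
      exact via_symm _ _ _ _
    · have k3 : ¬ G.IsLink e y x := fun h => k1 h.symm
      rw [arcC e x y k1 k2 k, arcB e y x k3 k.symm]
      exact via_symm _ _ _ _
  · intro e x y hl
    have conv : ∀ {x y : α} (g g' : C(I, Z)) (_ : g = g') (h0 : g 0 = f.pt x) (h1 : g 1 = f.pt y)
        (h0' : g' 0 = f.pt x) (h1' : g' 1 = f.pt y),
        (⟨g, h0, h1⟩ : Path (f.pt x) (f.pt y)) = ⟨g', h0', h1'⟩ := by
      intro x y g g' hg h0 h1 h0' h1'
      subst hg
      rfl
    have key : ∀ {x' y' : α} {e1 e2 : β} (k1 : G.IsLink e1 x' y0) (k2 : G.IsLink e2 y0 y'),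
        y0 ∈ M {x', y'} → (∀ u ∈ (Walk.cons e1 k1 (.cons e2 k2 (.nil y'))).support,
          u ∈ M {x', y'}) ∧ HomIn (f.big (M {x', y'}))
          (⟨via f.toDrawing k1 k2, via_zero _ k1 k2, via_one _ k1 k2⟩ :
            Path (f.pt x') (f.pt y')) (f.hol (.cons e1 k1 (.cons e2 k2 (.nil y')))) := by
      intro x' y' e1 e2 k1 k2 hv
      have hx' : x' ∈ M {x', y'} := Or.inl (by simp)
      have hy' : y' ∈ M {x', y'} := Or.inl (by simp)
      refine ⟨?_, via_walk f k1 k2 hx' hv hy'⟩
      intro u hu
      simp only [Walk.support, List.mem_cons, List.not_mem_nil, or_false] at hu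
      rcases hu with rfl | rfl | rfl
      · exact hx'
      · exact hv
      · exact hy'
    obtain ⟨hx0, hy0, hxy, k | ⟨rfl, k1, k⟩ | ⟨rfl, k1, k2, k⟩⟩ := cases' hl
    · have hx' : x ∈ M {x, y} := Or.inl (by simp)
      have hy' : y ∈ M {x, y} := Or.inl (by simp)
      refine ⟨.cons e k (.nil y), ?_, ?_⟩
      · intro u hu
        simp only [Walk.support, List.mem_cons, List.not_mem_nil, or_false] at hu
        rcases hu with rfl | rfl
        · exact hx'
        · exact hy'
      · rw [conv _ _ (arcA e x y k) _ _ (f.arc_zero k) (f.arc_one k)]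
        exact arc_walk f k hx' hy'
    · have k3 := key l0 k (Or.inr ⟨rfl, by simp⟩)
      exact ⟨_, k3.1, by rw [conv _ _ (arcB e x y k1 k) _ _ (via_zero _ _ _) (via_one _ _ _)]
                         exact k3.2⟩
    · have k3 := key k l0.symm (Or.inr ⟨rfl, by simp⟩)
      exact ⟨_, k3.1, by rw [conv _ _ (arcC e x y k1 k2 k) _ _ (via_zero _ _ _) (via_one _ _ _)]
                         exact k3.2⟩


theorem arc_value (D : Drawing G Z) {e : β} {x y : α} (h : G.IsLink e x y) (t : I) :
    D.arc e x y t = D.pt x ∨ D.arc e x y t = D.pt y ∨ t ∈ Ioo (0 : I) 1 := by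
  rcases eq_or_ne t 0 with rfl | h0
  · exact Or.inl (D.arc_zero h)
  rcases eq_or_ne t 1 with rfl | h1
  · exact Or.inr (Or.inl (D.arc_one h))
  · exact Or.inr (Or.inr ⟨lt_of_le_of_ne t.2.1 (fun h => h0 h.symm),
      lt_of_le_of_ne t.2.2 (fun h => h1 h)⟩)

theorem walk_value (D : Drawing G Z) {x y : α} (p : Walk G x y) (t : I) :
    (∃ u ∈ p.support, D.walk p t = D.pt u) ∨
    (∃ e u w, ∃ _ : G.IsLink e u w, e ∈ p.edges ∧ ∃ t' ∈ Ioo (0 : I) 1,
      D.walk p t = D.arc e u w t') := by
  induction p generalizing t with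
  | nil x => exact Or.inl ⟨x, by simp [Walk.support], rfl⟩
  | @cons x y z e h p ih =>
    have harc : ∀ t, (∃ u ∈ (Walk.cons e h p).support, D.path h t = D.pt u) ∨
        (∃ e' u w, ∃ _ : G.IsLink e' u w, e' ∈ (Walk.cons e h p).edges ∧ ∃ t' ∈ Ioo (0 : I) 1,
          D.path h t = D.arc e' u w t') := by
      intro t
      rcases arc_value D h t with h1 | h1 | h1
      · exact Or.inl ⟨x, by simp [Walk.support], h1⟩
      · exact Or.inl ⟨y, by simp [Walk.support, p.start_mem_support], h1⟩
      · exact Or.inr ⟨e, x, y, h, by simp [Walk.edges], t, h1, rfl⟩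
    cases p with
    | nil _ => exact harc t
    | cons e1 h1 p =>
      have h2 : D.walk (.cons e h (.cons e1 h1 p)) t =
          (D.path h).trans (D.walk (.cons e1 h1 p)) t := rfl
      rw [h2, Path.trans_apply]
      split_ifs with h3
      · exact harc _
      · rcases ih ⟨2 * t - 1, _⟩ with ⟨u, hu, h4⟩ | ⟨e', u, w, hl, he', t', ht', h4⟩
        · exact Or.inl ⟨u, by rw [Walk.support]; exact List.mem_cons_of_mem _ hu, h4⟩
        · exact Or.inr ⟨e', u, w, hl, by rw [Walk.edges]; exact List.mem_cons_of_mem _ he',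
            t', ht', h4⟩

/-- a point in the image of a closed cell comes from a vertex, an open edge or an open disc of
this closed cell -/
theorem image_value (f : FullMap G Z) (s : Cell G) {z : Z} (hz : z ∈ f.image s) :
    (∃ u ∈ G.vertexSet, u ∈ s.verts ∧ z = f.pt u) ∨
    (∃ e u w, G.IsLink e u w ∧ (u ∈ s.verts ∧ w ∈ s.verts) ∧
      ∃ t ∈ Ioo (0 : I) 1, z = f.arc e u w t) ∨
    (∃ C hC, (∃ u, u ∈ (Cell.disc (G := G) C hC).verts ∧ u ∈ s.verts) ∧
      (Cell.disc (G := G) C hC).verts ⊆ s.verts ∧
      ∃ p ∈ Ioo (0 : I) 1 ×ˢ Ioo (0 : I) 1, z = f.disc C hC p) := by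
  cases s with
  | vertex x hx => exact Or.inl ⟨x, hx, rfl, hz⟩
  | edge e he =>
    obtain ⟨x, y, hl, t, rfl⟩ := hz
    rcases arc_value f.toDrawing hl t with h1 | h1 | h1
    · exact Or.inl ⟨x, hl.left_mem, ⟨_, hl⟩, h1⟩
    · exact Or.inl ⟨y, hl.right_mem, ⟨_, hl.symm⟩, h1⟩
    · exact Or.inr (Or.inl ⟨e, x, y, hl, ⟨⟨_, hl⟩, ⟨_, hl.symm⟩⟩, t, h1, rfl⟩)
  | disc C hC =>
    obtain ⟨⟨s, t⟩, rfl⟩ := hz
    have hb := f.bdry_isCycle C hC
    have hbe := f.bdry_edges C hC
    have hbase : f.base C hC ∈ G.vertexSet := by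
      generalize f.bdry C hC = b at hb
      generalize f.base C hC = x0 at b hb
      cases b with
      | nil x => exact absurd rfl hb.1
      | cons e h p => exact h.left_mem
    have hsup : ∀ u ∈ (f.bdry C hC).support, u ∈ (Cell.disc C hC).verts := by
      intro u hu
      obtain ⟨e, he, hu'⟩ := exists_edge_of_mem hb hu
      exact ⟨e, hbe ▸ he, hu'⟩
    have hbv := hsup _ (f.bdry C hC).start_mem_support
    by_cases h1 : s = 1
    · subst h1
      exact Or.inl ⟨_, hbase, hbv, (f.disc C hC).apply_one t⟩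
    by_cases h2 : t = 0
    · subst h2
      exact Or.inl ⟨_, hbase, hbv, Path.Homotopy.source _ s⟩
    by_cases h3 : t = 1
    · subst h3
      exact Or.inl ⟨_, hbase, hbv, Path.Homotopy.target _ s⟩
    by_cases h4 : s = 0
    · subst h4
      have h5 : f.disc C hC (0, t) = f.walk (f.bdry C hC) t := (f.disc C hC).apply_zero t
      rw [h5]
      rcases walk_value f.toDrawing (f.bdry C hC) t with ⟨u, hu, h6⟩ |
        ⟨e, u, w, hl, he, t', ht', h6⟩
      · exact Or.inl ⟨u, (f.bdry C hC).mem_vertexSet hbase hu, hsup u hu, h6⟩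
      · exact Or.inr (Or.inl ⟨e, u, w, hl, ⟨hsup u ((f.bdry C hC).end_mem_of_edge he hl),
          hsup w ((f.bdry C hC).end_mem_of_edge he hl.symm)⟩, t', ht', h6⟩)
    · refine Or.inr (Or.inr ⟨C, hC, ⟨_, hbv, hbv⟩, subset_rfl, (s, t), ⟨⟨?_, ?_⟩, ⟨?_, ?_⟩⟩, rfl⟩)
      · exact lt_of_le_of_ne s.2.1 (fun h => h4 h.symm)
      · exact lt_of_le_of_ne s.2.2 (fun h => h1 h)
      · exact lt_of_le_of_ne t.2.1 (fun h => h2 h.symm)
      · exact lt_of_le_of_ne t.2.2 (fun h => h3 h)

/-- an embedding is an almost embedding -/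
theorem FullMap.IsInjective.isAlmostEmbedding {f : FullMap G Z} (hf : f.IsInjective) :
    f.IsAlmostEmbedding := by
  intro s t hst
  have hd : ∀ u, u ∈ s.verts → u ∈ t.verts → False := fun u h1 h2 =>
    Set.disjoint_left.1 hst h1 h2
  rw [Set.disjoint_left]
  intro z hz hz'
  rcases image_value f s hz with ⟨u, hu, hus, rfl⟩ | ⟨e, u, w, hl, ⟨hus, hws⟩, p, hp, rfl⟩ |
    ⟨C, hC, ⟨u, hu, hus⟩, hCs, p, hp, rfl⟩ <;>
  rcases image_value f t hz' with ⟨u', hu', hut, h2⟩ | ⟨e', u', w', hl', ⟨hut, hwt⟩, p', hp', h2⟩ |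
    ⟨C', hC', ⟨u', hu', hut⟩, hCt, p', hp', h2⟩
  · obtain rfl := hf.vertex_vertex u hu u' hu' h2
    exact hd u hus hut
  · exact hf.edge_vertex e' u' w' hl' p' hp' u hu h2.symm
  · exact hf.disc_vertex C' hC' p' hp' u hu h2.symm
  · exact hf.edge_vertex e u w hl p hp u' hu' h2
  · obtain ⟨rfl, -⟩ := hf.edge_edge e u w e' u' w' hl hl' p hp p' hp' h2
    rcases hl.left_eq_or_eq hl' with rfl | rfl
    · exact hd u hus hut
    · exact hd u hus hwt
  · exact hf.disc_edge C' hC' p' hp' e u w hl p hp h2.symm
  · exact hf.disc_vertex C hC p hp u' hu' h2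
  · exact hf.disc_edge C hC p hp e' u' w' hl' p' hp' h2
  · obtain ⟨rfl, -⟩ := hf.disc_disc C hC C' hC' p hp p' hp' h2
    exact hd u hus (hCt hu)

theorem almostEmbeds_of_step {G H : Graph α β} (h : Step G H) (hG : AlmostEmbeds G Z) :
    AlmostEmbeds H Z := by
  cases h with
  | yDelta h => exact almostEmbeds_of_yDelta h hG
  | delete h => exact almostEmbeds_of_le h hG
  | contract h => exact almostEmbeds_of_contraction h hG
  | double h => exact almostEmbeds_of_doubling h hG

theorem almostEmbeds_of_steps {G H : Graph α β} (h : Relation.ReflTransGen Step G H)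
    (hG : AlmostEmbeds G Z) : AlmostEmbeds H Z := by
  induction h with
  | refl => exact hG
  | tail _ h2 ih => exact almostEmbeds_of_step h2 ih

end Graphs

end H95F
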